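import Pool.Agent.H95.FX.Stm

/-!
# TM+ T4: graphs with a dominated Frobenius symbol (MP_c916f9_co), backup of helper47
-/

set_option autoImplicit false

namespace Pool.Agent.H47.FX

open Pool.Agent.H95.FX

/-! ### isolated and universal vertices -/

/-- add one vertex, joined to everything iff `c` -/
def optG {V : Type} (G : SimpleGraph V) (c : Prop) : SimpleGraph (Option V) where
  Adj x y := (∃ u w, x = some u ∧ y = some w ∧ G.Adj u w) ∨
    (c ∧ ((x = none ∧ y ≠ none) ∨ (y = none ∧ x ≠ none)))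
  symm := by
    refine ⟨?_⟩
    rintro x y (⟨u, w, h1, h2, h3⟩ | ⟨hc, h | h⟩)
    · exact Or.inl ⟨w, u, h2, h1, h3.symm⟩
    · exact Or.inr ⟨hc, Or.inr h⟩
    · exact Or.inr ⟨hc, Or.inl h⟩
  loopless := by
    refine ⟨?_⟩
    rintro x (⟨u, w, h1, h2, h3⟩ | ⟨hc, h | h⟩)
    · rw [h1] at h2
      cases h2
      exact h3.ne rfl
    · exact h.2 h.1
    · exact h.2 h.1

theorem opt_some_false {V : Type} (G : SimpleGraph V) (v : V) :
    ((optG G False).neighborSet (some v)).ncard = (G.neighborSet v).ncard := by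
  have : (optG G False).neighborSet (some v) = some '' (G.neighborSet v) := by
    ext w
    simp only [SimpleGraph.mem_neighborSet, optG, Set.mem_image, false_and, or_false]
    constructor
    · rintro ⟨u, w', h1, h2, h3⟩
      cases h1
      exact ⟨w', h3, h2.symm⟩
    · rintro ⟨w', h, rfl⟩
      exact ⟨v, w', rfl, rfl, h⟩
  rw [this, Set.ncard_image_of_injective _ (Option.some_injective V)]

theorem opt_none_false {V : Type} (G : SimpleGraph V) :
    ((optG G False).neighborSet none).ncard = 0 := by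
  have : (optG G False).neighborSet none = ∅ := by
    ext w
    simp [optG]
  rw [this, Set.ncard_empty]

theorem opt_some_true {V : Type} [Finite V] (G : SimpleGraph V) (v : V) :
    ((optG G True).neighborSet (some v)).ncard = (G.neighborSet v).ncard + 1 := by
  have : (optG G True).neighborSet (some v) = insert none (some '' (G.neighborSet v)) := by
    ext w
    simp only [SimpleGraph.mem_neighborSet, optG, Set.mem_image, true_and, Set.mem_insert_iff,
      reduceCtorEq, false_and, false_or, ne_eq, not_false_eq_true, and_true]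
    constructor
    · rintro (⟨u, w', h1, h2, h3⟩ | h)
      · cases h1
        exact Or.inr ⟨w', h3, h2.symm⟩
      · exact Or.inl h
    · rintro (h | ⟨w', h, rfl⟩)
      · exact Or.inr h
      · exact Or.inl ⟨v, w', rfl, rfl, h⟩
  rw [this, Set.ncard_insert_of_notMem (by simp) (Set.toFinite _),
    Set.ncard_image_of_injective _ (Option.some_injective V)]

theorem opt_none_true {V : Type} [Fintype V] (G : SimpleGraph V) :
    ((optG G True).neighborSet none).ncard = Fintype.card V := by
  have : (optG G True).neighborSet none = some '' (Set.univ : Set V) := by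
    ext w
    cases w with
    | none => simp [optG]
    | some w => simp [optG]
  rw [this, Set.ncard_image_of_injective _ (Option.some_injective V), Set.ncard_univ,
    Nat.card_eq_fintype_card]

theorem univ_option {V : Type} [Fintype V] :
    (Finset.univ : Finset (Option V)).val = none ::ₘ (Finset.univ : Finset V).val.map some := by
  rfl

theorem giso : SIso := by
  rintro s ⟨V, iV, G, hG⟩
  refine ⟨Option V, inferInstance, optG G False, ?_⟩
  rw [← hG, univ_option, Multiset.map_cons, opt_none_false, Multiset.map_map]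
  congr 1
  exact Multiset.map_congr rfl fun v _ => opt_some_false G v

theorem guniv : SUniv := by
  rintro s ⟨V, iV, G, hG⟩
  refine ⟨Option V, inferInstance, optG G True, ?_⟩
  rw [← hG, univ_option, Multiset.map_cons, opt_none_true, Multiset.map_map, Multiset.map_map]
  congr 1
  · rw [Multiset.card_map]
    rfl
  · exact Multiset.map_congr rfl fun v _ => opt_some_true G v

/-! ### changing a graph -/

/-- the graph with the edges of `D` removed and the edge `s(p, q)` added -/
def chg {V : Type} (G : SimpleGraph V) (D : Set (Sym2 V)) (p q : V) : SimpleGraph V :=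
  SimpleGraph.fromEdgeSet ((G.edgeSet \ D) ∪ {s(p, q)})

theorem chg_adj {V : Type} (G : SimpleGraph V) (D : Set (Sym2 V)) (p q x y : V) :
    (chg G D p q).Adj x y ↔ ((G.Adj x y ∧ s(x, y) ∉ D) ∨ s(x, y) = s(p, q)) ∧ x ≠ y := by
  rw [chg, SimpleGraph.fromEdgeSet_adj]
  simp only [Set.mem_union, Set.mem_sdiff, SimpleGraph.mem_edgeSet, Set.mem_singleton_iff, ne_eq]

/-- **move** the endpoint `v` of the edge `vp` to `w` -/
theorem move {V : Type} [Fintype V] (G : SimpleGraph V) {v w p : V} (hvw : v ≠ w)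
    (hvp : G.Adj v p) (hpw1 : p ≠ w) (hwp : ¬ G.Adj w p) :
    ∃ G' : SimpleGraph V, (G'.neighborSet v).ncard + 1 = (G.neighborSet v).ncard ∧
      (G'.neighborSet w).ncard = (G.neighborSet w).ncard + 1 ∧
      (∀ u, u ≠ v → u ≠ w → (G'.neighborSet u).ncard = (G.neighborSet u).ncard) ∧
      ∀ y, y ≠ p → G.Adj v y → G'.Adj v y := by
  classical
  have hp : p ∈ G.neighborSet v := hvp
  have hpw2 : p ∉ G.neighborSet w := hwp
  have hvp' : v ≠ p := hvp.ne
  refine ⟨chg G {s(v, p)} w p, ?_, ?_, ?_, ?_⟩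
  · have h : (chg G {s(v, p)} w p).neighborSet v = G.neighborSet v \ {p} := by
      ext y
      simp only [SimpleGraph.mem_neighborSet, chg_adj, Set.mem_singleton_iff, Sym2.eq_iff,
        Set.mem_sdiff]
      constructor
      · rintro ⟨⟨h1, h2⟩ | (⟨h1, h2⟩ | ⟨h1, h2⟩), h3⟩
        · exact ⟨h1, fun h => h2 (Or.inl ⟨trivial, h⟩)⟩
        · exact absurd h1 hvw
        · exact absurd h1 hvp'
      · rintro ⟨h1, h2⟩
        refine ⟨Or.inl ⟨h1, ?_⟩, h1.ne⟩
        rintro (⟨_, h⟩ | ⟨h, _⟩)
        · exact h2 h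
        · exact hvp' h
    rw [h]
    exact Set.ncard_diff_singleton_add_one hp (Set.toFinite _)
  · have h : (chg G {s(v, p)} w p).neighborSet w = insert p (G.neighborSet w) := by
      ext y
      simp only [SimpleGraph.mem_neighborSet, chg_adj, Set.mem_singleton_iff, Sym2.eq_iff,
        Set.mem_insert_iff]
      constructor
      · rintro ⟨⟨h1, h2⟩ | (⟨h1, h2⟩ | ⟨h1, h2⟩), h3⟩
        · exact Or.inr h1
        · exact Or.inl h2
        · exact absurd h1.symm hpw1
      · rintro (h1 | h1)
        · subst h1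
          exact ⟨Or.inr (Or.inl ⟨trivial, rfl⟩), fun h => hpw1 h.symm⟩
        · refine ⟨Or.inl ⟨h1, ?_⟩, h1.ne⟩
          rintro (⟨h, _⟩ | ⟨h, _⟩)
          · exact hvw h.symm
          · exact hpw1 h.symm
    rw [h]
    exact Set.ncard_insert_of_notMem hpw2 (Set.toFinite _)
  · intro u huv huw
    by_cases hup : u = p
    · subst hup
      have h : (chg G {s(v, u)} w u).neighborSet u = insert w (G.neighborSet u \ {v}) := by
        ext y
        simp only [SimpleGraph.mem_neighborSet, chg_adj, Set.mem_singleton_iff, Sym2.eq_iff,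
          Set.mem_insert_iff, Set.mem_sdiff]
        constructor
        · rintro ⟨⟨h1, h2⟩ | (⟨h1, h2⟩ | ⟨h1, h2⟩), h3⟩
          · exact Or.inr ⟨h1, fun h => h2 (Or.inr ⟨trivial, h⟩)⟩
          · exact absurd h1 huw
          · exact Or.inl h2
        · rintro (h1 | ⟨h1, h2⟩)
          · subst h1
            exact ⟨Or.inr (Or.inr ⟨trivial, rfl⟩), huw⟩
          · refine ⟨Or.inl ⟨h1, ?_⟩, h1.ne⟩
            rintro (⟨h, _⟩ | ⟨_, h⟩)
            · exact huv h
            · exact h2 h
      rw [h, Set.ncard_insert_of_notMem _ (Set.toFinite _)]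
      · exact Set.ncard_diff_singleton_add_one hvp.symm (Set.toFinite _)
      · rintro ⟨h1, _⟩
        exact hwp h1.symm
    · have h : (chg G {s(v, p)} w p).neighborSet u = G.neighborSet u := by
        ext y
        simp only [SimpleGraph.mem_neighborSet, chg_adj, Set.mem_singleton_iff, Sym2.eq_iff]
        constructor
        · rintro ⟨⟨h1, h2⟩ | (⟨h1, h2⟩ | ⟨h1, h2⟩), h3⟩
          · exact h1
          · exact absurd h1 huw
          · exact absurd h1 hup
        · intro h1
          refine ⟨Or.inl ⟨h1, ?_⟩, h1.ne⟩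
          rintro (⟨h, _⟩ | ⟨h, _⟩)
          · exact huv h
          · exact hup h
      rw [h]
  · intro y hy h1
    rw [chg_adj]
    refine ⟨Or.inl ⟨h1, ?_⟩, h1.ne⟩
    rw [Set.mem_singleton_iff, Sym2.eq_iff]
    rintro (⟨_, h⟩ | ⟨h, _⟩)
    · exact hy h
    · exact hvp' h

/-- **transfer**: one unit from a vertex of larger degree to one of smaller degree -/
theorem transfer {V : Type} [Fintype V] (G : SimpleGraph V) {v w : V} (hvw : v ≠ w)
    (hd : (G.neighborSet w).ncard + 2 ≤ (G.neighborSet v).ncard) :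
    ∃ G' : SimpleGraph V, (G'.neighborSet v).ncard + 1 = (G.neighborSet v).ncard ∧
      (G'.neighborSet w).ncard = (G.neighborSet w).ncard + 1 ∧
      ∀ u, u ≠ v → u ≠ w → (G'.neighborSet u).ncard = (G.neighborSet u).ncard := by
  obtain ⟨p, hp, hpw⟩ : ∃ p, p ∈ G.neighborSet v ∧ p ∉ insert w (G.neighborSet w) := by
    by_contra hcon
    push Not at hcon
    have h1 : G.neighborSet v ⊆ insert w (G.neighborSet w) := fun p hp => hcon p hp
    have h2 := Set.ncard_le_ncard h1 (Set.toFinite _)
    have h3 := Set.ncard_insert_le w (G.neighborSet w)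
    omega
  rw [Set.mem_insert_iff, not_or] at hpw
  obtain ⟨G', h1, h2, h3, _⟩ := move G hvw hp hpw.1 hpw.2
  exact ⟨G', h1, h2, h3⟩

/-- **deletion** of an edge -/
theorem del {V : Type} [Fintype V] (G : SimpleGraph V) {v q : V} (hvq : G.Adj v q) :
    ∃ G' : SimpleGraph V, (G'.neighborSet v).ncard + 1 = (G.neighborSet v).ncard ∧
      (G'.neighborSet q).ncard + 1 = (G.neighborSet q).ncard ∧
      ∀ u, u ≠ v → u ≠ q → (G'.neighborSet u).ncard = (G.neighborSet u).ncard := by
  classical
  have hne := hvq.ne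
  have hadj : ∀ x y, (G.deleteEdges {s(v, q)}).Adj x y ↔ G.Adj x y ∧ s(x, y) ≠ s(v, q) := by
    intro x y
    simp [SimpleGraph.deleteEdges_adj]
  refine ⟨G.deleteEdges {s(v, q)}, ?_, ?_, ?_⟩
  · have h : (G.deleteEdges {s(v, q)}).neighborSet v = G.neighborSet v \ {q} := by
      ext y
      simp only [SimpleGraph.mem_neighborSet, hadj, ne_eq, Sym2.eq_iff, Set.mem_sdiff,
        Set.mem_singleton_iff]
      constructor
      · rintro ⟨h1, h2⟩
        exact ⟨h1, fun h => h2 (Or.inl ⟨trivial, h⟩)⟩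
      · rintro ⟨h1, h2⟩
        refine ⟨h1, ?_⟩
        rintro (⟨_, h⟩ | ⟨h, _⟩)
        · exact h2 h
        · exact hne h
    rw [h]
    exact Set.ncard_diff_singleton_add_one hvq (Set.toFinite _)
  · have h : (G.deleteEdges {s(v, q)}).neighborSet q = G.neighborSet q \ {v} := by
      ext y
      simp only [SimpleGraph.mem_neighborSet, hadj, ne_eq, Sym2.eq_iff, Set.mem_sdiff,
        Set.mem_singleton_iff]
      constructor
      · rintro ⟨h1, h2⟩
        exact ⟨h1, fun h => h2 (Or.inr ⟨trivial, h⟩)⟩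
      · rintro ⟨h1, h2⟩
        refine ⟨h1, ?_⟩
        rintro (⟨h, _⟩ | ⟨_, h⟩)
        · exact hne h.symm
        · exact h2 h
    rw [h]
    exact Set.ncard_diff_singleton_add_one hvq.symm (Set.toFinite _)
  · intro u huv huq
    have h : (G.deleteEdges {s(v, q)}).neighborSet u = G.neighborSet u := by
      ext y
      simp only [SimpleGraph.mem_neighborSet, hadj, ne_eq, Sym2.eq_iff]
      constructor
      · rintro ⟨h1, h2⟩
        exact h1
      · intro h1
        refine ⟨h1, ?_⟩
        rintro (⟨h, _⟩ | ⟨h, _⟩)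
        · exact huv h
        · exact huq h
    rw [h]

/-! ### multisets -/

theorem pick {V : Type} [Fintype V] [DecidableEq V] {f : V → ℕ} {A : ℕ} {S : Finset V}
    {ρ : Multiset ℕ} (h : S.val.map f = A ::ₘ ρ) :
    ∃ v ∈ S, f v = A ∧ (S.erase v).val.map f = ρ := by
  have h1 : A ∈ S.val.map f := by
    rw [h]
    exact Multiset.mem_cons_self _ _
  obtain ⟨v, hv, hA⟩ := Multiset.mem_map.1 h1
  have hvS : v ∈ S := hv
  refine ⟨v, hvS, hA, ?_⟩
  have h2 : S.val = v ::ₘ (S.erase v).val := by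
    rw [Finset.erase_val]
    exact (Multiset.cons_erase hv).symm
  rw [h2, Multiset.map_cons, hA] at h
  exact (Multiset.cons_inj_right A).1 h

theorem unpick {V : Type} [DecidableEq V] {f : V → ℕ} {S : Finset V} {v : V} (hv : v ∈ S) :
    S.val.map f = f v ::ₘ (S.erase v).val.map f := by
  have h2 : S.val = v ::ₘ (S.erase v).val := by
    rw [Finset.erase_val]
    exact (Multiset.cons_erase hv).symm
  conv_lhs => rw [h2]
  rw [Multiset.map_cons]

theorem grM_transfer {A B : ℕ} {τ : Multiset ℕ} (h : GrM ((A + 1) ::ₘ B ::ₘ τ)) (hAB : B + 1 ≤ A) :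
    GrM (A ::ₘ (B + 1) ::ₘ τ) := by
  classical
  obtain ⟨V, iV, G, hG⟩ := h
  obtain ⟨v, _, hv, h1⟩ := pick hG
  obtain ⟨w, hw, hwB, h2⟩ := pick h1
  have hwv : w ≠ v := (Finset.mem_erase.1 hw).1
  obtain ⟨G', e1, e2, e3⟩ := transfer G (v := v) (w := w) hwv.symm (by omega)
  refine ⟨V, iV, G', ?_⟩
  rw [unpick (Finset.mem_univ v), unpick hw]
  have a1 : (G'.neighborSet v).ncard = A := by omega
  have a2 : (G'.neighborSet w).ncard = B + 1 := by omega
  rw [a1, a2]
  congr 2
  rw [← h2]
  refine Multiset.map_congr rfl fun u hu => ?_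
  have hu' := Finset.mem_erase.1 (show u ∈ (Finset.univ.erase v).erase w from hu)
  have hu'' := Finset.mem_erase.1 hu'.2
  exact e3 u hu''.1 hu'.1

theorem grM_del {c : ℕ} {ρ : Multiset ℕ} (h : GrM ((c + 1) ::ₘ ρ)) :
    ∃ (y : ℕ) (t : Multiset ℕ), ρ = (y + 1) ::ₘ t ∧ GrM (c ::ₘ y ::ₘ t) := by
  classical
  obtain ⟨V, iV, G, hG⟩ := h
  obtain ⟨v, _, hv, h1⟩ := pick hG
  obtain ⟨q, hq⟩ : (G.neighborSet v).Nonempty := by
    rw [← Set.ncard_pos (Set.toFinite _)]
    omega
  have hvq : G.Adj v q := hq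
  obtain ⟨G', e1, e2, e3⟩ := del G hvq
  have hq' : q ∈ (Finset.univ : Finset V).erase v := Finset.mem_erase.2 ⟨hvq.ne.symm, Finset.mem_univ q⟩
  refine ⟨(G'.neighborSet q).ncard, ((Finset.univ.erase v).erase q).val.map
    (fun v => (G.neighborSet v).ncard), ?_, V, iV, G', ?_⟩
  · rw [e2, ← h1, unpick hq']
  · rw [unpick (Finset.mem_univ v), unpick hq']
    have a1 : (G'.neighborSet v).ncard = c := by omega
    rw [a1]
    congr 2
    refine Multiset.map_congr rfl fun u hu => ?_
    have hu' := Finset.mem_erase.1 (show u ∈ (Finset.univ.erase v).erase q from hu)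
    have hu'' := Finset.mem_erase.1 hu'.2
    exact e3 u hu''.1 hu'.1

theorem grM_drop {c : ℕ} {ρ : Multiset ℕ} (h : GrM ((c + 2) ::ₘ ρ)) (hρ : ∀ y ∈ ρ, y < c + 2) :
    GrM (c ::ₘ ρ) := by
  classical
  obtain ⟨V, iV, G, hG⟩ := h
  obtain ⟨v, _, hv, h1⟩ := pick hG
  obtain ⟨p, hp⟩ : (G.neighborSet v).Nonempty := by
    rw [← Set.ncard_pos (Set.toFinite _)]
    omega
  have hvp : G.Adj v p := hp
  have hdp : (G.neighborSet p).ncard < c + 2 := by
    apply hρ
    rw [← h1]
    exact Multiset.mem_map_of_mem _ (Finset.mem_erase.2 ⟨hvp.ne.symm, Finset.mem_univ p⟩)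
  obtain ⟨q, hq, hqp, hpq⟩ : ∃ q, q ∈ G.neighborSet v ∧ q ≠ p ∧ ¬ G.Adj p q := by
    by_contra hcon
    push Not at hcon
    have h2 : insert v (G.neighborSet v \ {p}) ⊆ G.neighborSet p := by
      intro y hy
      rcases Set.mem_insert_iff.1 hy with h3 | h3
      · rw [h3]
        exact hvp.symm
      · exact hcon y h3.1 h3.2
    have h3 := Set.ncard_le_ncard h2 (Set.toFinite _)
    rw [Set.ncard_insert_of_notMem (fun h => G.loopless.irrefl v h.1) (Set.toFinite _),
      Set.ncard_diff_singleton_add_one hp (Set.toFinite _)] at h3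
    omega
  have hvq : G.Adj v q := hq
  obtain ⟨G1, e1, e2, e3, e4⟩ := move G (v := v) (w := q) (p := p) hvq.ne hvp hqp.symm
    (fun h => hpq h.symm)
  have hvq1 : G1.Adj v q := e4 q hqp hvq
  obtain ⟨G2, f1, f2, f3⟩ := del G1 hvq1
  refine ⟨V, iV, G2, ?_⟩
  rw [unpick (Finset.mem_univ v)]
  have a1 : (G2.neighborSet v).ncard = c := by omega
  rw [a1]
  congr 1
  rw [← h1]
  refine Multiset.map_congr rfl fun u hu => ?_
  have hu' := Finset.mem_erase.1 (show u ∈ Finset.univ.erase v from hu)
  by_cases huq : u = q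
  · subst huq
    show (G2.neighborSet u).ncard = (G.neighborSet u).ncard
    omega
  · show (G2.neighborSet u).ncard = (G.neighborSet u).ncard
    rw [f3 u hu'.1 huq, e3 u hu'.1 huq]

theorem grM_drops {c k : ℕ} {ρ : Multiset ℕ} (h : GrM ((c + 2 * k) ::ₘ ρ))
    (hρ : ∀ y ∈ ρ, y < c + 2) : GrM (c ::ₘ ρ) := by
  induction k with
  | zero => exact h
  | succ k ih =>
    refine ih (grM_drop (c := c + 2 * k) ?_ fun y hy => ?_)
    · exact h
    · have := hρ y hy
      omega

theorem grM_zeros {s : Multiset ℕ} (h : GrM s) (k : ℕ) :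
    GrM (s + Multiset.replicate k 0) := by
  induction k with
  | zero => simpa using h
  | succ k ih =>
    rw [Multiset.replicate_succ, Multiset.add_cons]
    exact giso _ ih

/-! ### symbols -/

theorem fro_length (r : List (ℕ × ℕ)) : SD r → ∀ b, (∀ x ∈ r, x.2 < b) → (fro r).length ≤ b := by
  induction r with
  | nil =>
    intro _ b _
    simp [fro]
  | cons x r ih =>
    intro h b hb
    have h1 := List.pairwise_cons.1 h
    have h2 := ih h1.2 x.2 fun y hy => (h1.1 y hy).2
    have h3 := hb x (by simp)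
    simp only [fro, List.length_cons, List.length_append, List.length_map, List.length_replicate]
    omega

theorem fro_le (r : List (ℕ × ℕ)) : SD r → ∀ a, (∀ x ∈ r, x.1 < a) → ∀ y ∈ fro r, y ≤ a := by
  induction r with
  | nil =>
    intro _ a _ y hy
    simp [fro] at hy
  | cons x r ih =>
    intro h a ha y hy
    have h1 := List.pairwise_cons.1 h
    have h2 := ih h1.2 x.1 fun y hy => (h1.1 y hy).1
    have h3 := ha x (by simp)
    simp only [fro, List.mem_cons, List.mem_append, List.mem_map] at hy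
    rcases hy with hy | ⟨z, hz, hy⟩ | hy
    · omega
    · have := h2 z hz
      omega
    · have := List.eq_of_mem_replicate hy
      omega

theorem step {x : ℕ × ℕ} {s : Multiset ℕ} (hx : x.1 + 1 ≤ x.2) (hcard : Multiset.card s ≤ x.2)
    (hle : ∀ y ∈ s, y ≤ x.1) (m : ℕ)
    (he : Even m → GrM s)
    (ho : ¬ Even m → ∃ (y : ℕ) (t : Multiset ℕ), s = (y + 1) ::ₘ t ∧ GrM (y ::ₘ t)) :
    (Even (x.1 + x.2 + 1 + m) → GrM ((x.1 + 1) ::ₘ (s.map (· + 1) +
      Multiset.replicate (x.2 - Multiset.card s) 1))) ∧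
    (¬ Even (x.1 + x.2 + 1 + m) → ∃ (y : ℕ) (t : Multiset ℕ), ((x.1 + 1) ::ₘ (s.map (· + 1) +
      Multiset.replicate (x.2 - Multiset.card s) 1)) = (y + 1) ::ₘ t ∧ GrM (y ::ₘ t)) := by
  set ρ : Multiset ℕ := s.map (· + 1) + Multiset.replicate (x.2 - Multiset.card s) 1 with hρ
  have hρle : ∀ y ∈ ρ, y ≤ x.1 + 1 := by
    intro y hy
    rw [hρ, Multiset.mem_add] at hy
    rcases hy with hy | hy
    · obtain ⟨z, hz, rfl⟩ := Multiset.mem_map.1 hy
      have := hle z hz
      omega
    · have := Multiset.eq_of_mem_replicate hy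
      omega
  by_cases hm : Even m
  · -- the old graph exists
    have h1 := guniv _ (grM_zeros (he hm) (x.2 - Multiset.card s))
    rw [Multiset.card_add, Multiset.card_replicate, Nat.add_sub_cancel' hcard, Multiset.map_add,
      Multiset.map_replicate] at h1
    have h2 : GrM (x.2 ::ₘ ρ) := h1
    constructor
    · intro hE
      obtain ⟨k, hk⟩ : ∃ k, x.2 = x.1 + 1 + 2 * k := by
        refine ⟨(x.2 - (x.1 + 1)) / 2, ?_⟩
        have := (Nat.even_add.1 hE).2 hm
        rw [Nat.even_iff] at this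
        omega
      rw [hk] at h2
      exact grM_drops h2 fun y hy => by have := hρle y hy; omega
    · intro hO
      obtain ⟨k, hk⟩ : ∃ k, x.2 = x.1 + 2 + 2 * k := by
        refine ⟨(x.2 - (x.1 + 2)) / 2, ?_⟩
        have h4 : ¬ Even (x.1 + x.2 + 1) := fun h => hO (h.add hm)
        rw [Nat.even_iff] at h4
        omega
      rw [hk] at h2
      have h3 : GrM ((x.1 + 1 + 1) ::ₘ ρ) := grM_drops h2 fun y hy => by have := hρle y hy; omega
      obtain ⟨y, t, ht, hG⟩ := grM_del h3
      refine ⟨y, (x.1 + 1) ::ₘ t, ?_, ?_⟩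
      · rw [ht, Multiset.cons_swap]
      · rwa [Multiset.cons_swap]
  · obtain ⟨y, t, ht, hG⟩ := ho hm
    have hcard' : Multiset.card (y ::ₘ t) = Multiset.card s := by
      rw [ht, Multiset.card_cons, Multiset.card_cons]
    have h1 := guniv _ (grM_zeros hG (x.2 - Multiset.card s))
    rw [Multiset.card_add, Multiset.card_replicate, hcard', Nat.add_sub_cancel' hcard,
      Multiset.map_add, Multiset.map_replicate, Multiset.map_cons, Multiset.cons_add] at h1
    set τ : Multiset ℕ := t.map (· + 1) + Multiset.replicate (x.2 - Multiset.card s) (0 + 1) with hτ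
    have hρτ : ρ = (y + 1 + 1) ::ₘ τ := by
      rw [hρ, hτ]
      conv_lhs => rw [ht]
      rw [Multiset.map_cons, Multiset.cons_add, ← ht]
    have hyle : y + 1 ≤ x.1 := hle (y + 1) (by rw [ht]; exact Multiset.mem_cons_self _ _)
    have hτle : ∀ z ∈ (y + 1) ::ₘ τ, z ≤ x.1 + 1 := by
      intro z hz
      rcases Multiset.mem_cons.1 hz with h | h
      · omega
      · exact hρle z (by rw [hρτ]; exact Multiset.mem_cons_of_mem h)
    constructor
    · intro hE
      obtain ⟨k, hk⟩ : ∃ k, x.2 = x.1 + 2 + 2 * k := by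
        refine ⟨(x.2 - (x.1 + 2)) / 2, ?_⟩
        have h4 : ¬ Even (x.1 + x.2 + 1) := fun h => hm ((Nat.even_add.1 hE).1 h)
        rw [Nat.even_iff] at h4
        omega
      rw [hk] at h1
      have h3 : GrM ((x.1 + 1 + 1) ::ₘ (y + 1) ::ₘ τ) :=
        grM_drops h1 fun z hz => by have := hτle z hz; omega
      rw [hρτ]
      exact grM_transfer h3 (by omega)
    · intro hO
      obtain ⟨k, hk⟩ : ∃ k, x.2 = x.1 + 1 + 2 * k := by
        refine ⟨(x.2 - (x.1 + 1)) / 2, ?_⟩
        have h4 : Even (x.1 + x.2 + 1) := by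
          by_contra h
          exact hO ((Nat.even_add.2 ⟨fun h' => absurd h' h, fun h' => absurd h' hm⟩))
        rw [Nat.even_iff] at h4
        omega
      rw [hk] at h1
      have h3 : GrM ((x.1 + 1) ::ₘ (y + 1) ::ₘ τ) :=
        grM_drops h1 fun z hz => by have := hτle z hz; omega
      refine ⟨y + 1, (x.1 + 1) ::ₘ τ, ?_, ?_⟩
      · rw [hρτ, Multiset.cons_swap]
      · rwa [Multiset.cons_swap]

theorem main (r : List (ℕ × ℕ)) : SD r → (∀ x ∈ r, x.1 + 1 ≤ x.2) →
    (Even (mass r) → GrM (fro r : Multiset ℕ)) ∧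
    (¬ Even (mass r) → ∃ (y : ℕ) (t : Multiset ℕ), (fro r : Multiset ℕ) = (y + 1) ::ₘ t ∧
      GrM (y ::ₘ t)) := by
  induction r with
  | nil =>
    intro _ _
    refine ⟨fun _ => ⟨Empty, inferInstance, ⊥, rfl⟩, fun h => absurd ?_ h⟩
    simp [mass]
  | cons x r ih =>
    intro h hx
    have h1 := List.pairwise_cons.1 h
    have ih' := ih h1.2 fun y hy => hx y (List.mem_cons_of_mem _ hy)
    have h2 := fro_length r h1.2 x.2 fun y hy => (h1.1 y hy).2
    have h3 := fro_le r h1.2 x.1 fun y hy => (h1.1 y hy).1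
    have h4 := step (x := x) (s := (fro r : Multiset ℕ)) (hx x (by simp)) (by simpa using h2)
      (fun y hy => h3 y (by simpa using hy)) (mass r) ih'.1 ih'.2
    have e1 : mass (x :: r) = x.1 + x.2 + 1 + mass r := by
      simp [mass]
    have e2 : (fro (x :: r) : Multiset ℕ) = (x.1 + 1) ::ₘ ((fro r : Multiset ℕ).map (· + 1) +
      Multiset.replicate (x.2 - Multiset.card (fro r : Multiset ℕ)) 1) := by
      rw [fro, ← Multiset.cons_coe, ← Multiset.coe_add, Multiset.map_coe, Multiset.coe_card,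
        Multiset.coe_replicate]
    rw [e1, e2]
    exact h4

theorem gr : SGr := fun r h1 h2 h3 => (main r h1 h2).1 h3

end Pool.Agent.H47.FX
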